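import Pool.Agent.Helper56.NL.Ext

/-! The extension theorem over a base of infinite rank. -/

set_option autoImplicit false

namespace Pool.Agent.Helper56.HS

open Pool.Agent.Helper35.EM Pool.Agent.Helper56.SA Pool.Agent.Helper56.EM Pool.Agent.Helper56.NL
  Module Submodule Set ComplexConjugate

/-- `I` is algebraically independent over `S` -/
def IndS (S : Set ℂ) (I : Set ℂ) : Prop := ∀ e ∈ I, e ∉ M.closure (S ∪ (I \ {e}))

theorem IndS.insert {S I : Set ℂ} (h : IndS S I) {c : ℂ} (hc : c ∉ M.closure (S ∪ I)) :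
    IndS S (insert c I) := by
  have hcI : c ∉ I := fun h0 => hc (cl_self (Or.inr h0))
  intro e he
  rcases he with rfl | he
  · rw [Set.insert_diff_self_of_notMem hcI]
    exact hc
  · have hne : e ≠ c := fun h0 => hcI (h0 ▸ he)
    have e1 : Insert.insert c I \ {e} = Insert.insert c (I \ {e}) := by
      rw [Set.insert_diff_of_notMem]
      simpa using hne.symm
    intro h1
    rw [e1, Set.union_insert] at h1
    have h2 := cl_exch h1 (h e he)
    apply hc
    have h3 : Insert.insert e (S ∪ (I \ {e})) ⊆ S ∪ I := by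
      rintro x (rfl | hx | hx)
      · exact Or.inr he
      · exact Or.inl hx
      · exact Or.inr hx.1
    exact cl_mono h3 h2

/-- the rank inequality modulo `P0` and `S` -/
def IneqS (S : Set ℂ) (P0 P : Submodule ℚ (ℂ × ℂ)) : Prop := ∀ V ≤ P, FiniteDimensional ℚ V →
  ∃ I : Finset ℂ, (I : Set ℂ) ⊆ co V ∧ IndS S I ∧
    finrank ℚ V ≤ I.card + finrank ℚ (V ⊓ P0 : Submodule ℚ (ℂ × ℂ))

theorem IneqS.refl (S : Set ℂ) (P : Submodule ℚ (ℂ × ℂ)) : IneqS S P P := by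
  intro V hV _
  refine ⟨∅, by simp, fun e he => by simp at he, ?_⟩
  rw [inf_eq_left.2 hV]
  simp

/-- a free sequence of positive reals over `S` -/
structure FreeS (S : Set ℂ) (t : ℕ → ℂ) : Prop where
  free : ∀ n, t n ∉ M.closure (S ∪ t '' Iio n)
  pos : ∀ n, Pos (t n)
  real : ∀ x ∈ S, conj x = x
  count : S.Countable

/-- the generators -/
def FF (S : Set ℂ) (t : ℕ → ℂ) (n : ℕ) : Set ℂ := S ∪ t '' Iio n

theorem FF_mono (S : Set ℂ) (t : ℕ → ℂ) {m n : ℕ} (h : m ≤ n) : FF S t m ⊆ FF S t n :=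
  union_subset_union_right _ (image_mono t h)

theorem FreeS.conj_fix {S : Set ℂ} {t : ℕ → ℂ} (ht : FreeS S t) {n : ℕ} :
    ∀ y ∈ FF S t n, conj y = y := by
  rintro y (hy | ⟨k, -, rfl⟩)
  · exact ht.real y hy
  · exact (ht.pos k).conj

theorem stepS {F0 : Set ℂ} {P0 P : Submodule ℚ (ℂ × ℂ)} {F F' : Set ℂ} (hF : F ⊆ F')
    (hF0 : F0 ⊆ F) (h0P : P0 ≤ P) (h : SI P F) (hI : IneqS F0 P0 P) (v : ℂ × ℂ)
    (hv1 : v.1 ∈ M.closure F') (hv2 : Complex.exp v.2 ∈ M.closure F')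
    (hi1 : ∀ p ∈ P, ∀ q : ℚ, q ≠ 0 → p.1 + q • v.1 ≠ 0)
    (hi2 : ∀ p ∈ P, ∀ q : ℚ, q ≠ 0 → p.2 + q • v.2 ≠ 0)
    (hg : ∀ p ∈ P, ∀ q : ℚ, q ≠ 0 → p.1 + q • v.1 ∉ M.closure F ∨
      Complex.exp (p.2 + q • v.2) ∉ M.closure F) :
    SI (P ⊔ Submodule.span ℚ {v}) F' ∧ IneqS F0 P0 (P ⊔ Submodule.span ℚ {v}) := by
  have hmem : ∀ p ∈ P ⊔ Submodule.span ℚ {v}, ∃ p' ∈ P, ∃ q : ℚ, p = p' + q • v := by
    intro p hp
    obtain ⟨p', hp', w, hw, rfl⟩ := Submodule.mem_sup.1 hp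
    obtain ⟨q, rfl⟩ := Submodule.mem_span_singleton.1 hw
    exact ⟨p', hp', q, rfl⟩
  refine ⟨⟨?_, ?_, ?_, ?_⟩, ?_⟩
  · intro p hp
    obtain ⟨p', hp', q, rfl⟩ := hmem p hp
    simp only [Prod.fst_add, Prod.smul_fst]
    exact cl_add (cl_mono hF (h.fst_mem p' hp')) (cl_smul q hv1)
  · intro p hp
    obtain ⟨p', hp', q, rfl⟩ := hmem p hp
    simp only [Prod.snd_add, Prod.smul_snd]
    exact cl_exp_add (cl_mono hF (h.exp_mem p' hp')) (cl_exp_smul q hv2)
  · intro p hp h0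
    obtain ⟨p', hp', q, rfl⟩ := hmem p hp
    by_cases hq : q = 0
    · subst hq
      simp only [zero_smul, add_zero] at h0 ⊢
      exact h.inj1 p' hp' h0
    · exact absurd h0 (hi1 p' hp' q hq)
  · intro p hp h0
    obtain ⟨p', hp', q, rfl⟩ := hmem p hp
    by_cases hq : q = 0
    · subst hq
      simp only [zero_smul, add_zero] at h0 ⊢
      exact h.inj2 p' hp' h0
    · exact absurd h0 (hi2 p' hp' q hq)
  · intro V hV hfinV
    by_cases hVP : V ≤ P
    · exact hI V hVP hfinV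
    · obtain ⟨w, hw, hwP⟩ := SetLike.not_le_iff_exists.1 hVP
      have hf1 : FiniteDimensional ℚ (V ⊓ P : Submodule ℚ (ℂ × ℂ)) :=
        Submodule.finiteDimensional_of_le inf_le_left
      obtain ⟨pw, hpw, qw, hwe⟩ := hmem w (hV hw)
      have hqw : qw ≠ 0 := by
        rintro rfl
        apply hwP
        rw [hwe, zero_smul, add_zero]
        exact hpw
      -- dimension
      have hd : finrank ℚ V ≤ finrank ℚ (V ⊓ P : Submodule ℚ (ℂ × ℂ)) + 1 := by
        have hle : V ≤ (V ⊓ P) ⊔ span ℚ {w} := by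
          intro x hx
          obtain ⟨px, hpx, qx, hxe⟩ := hmem x (hV hx)
          have h1 : x - (qx / qw) • w ∈ V ⊓ P := by
            refine ⟨V.sub_mem hx (V.smul_mem _ hw), ?_⟩
            have e : x - (qx / qw) • w = px - (qx / qw) • pw := by
              rw [hxe, hwe, smul_add, smul_smul, div_mul_cancel₀ _ hqw]
              abel
            show x - (qx / qw) • w ∈ P
            rw [e]
            exact P.sub_mem hpx (P.smul_mem _ hpw)
          have h2 : x = (x - (qx / qw) • w) + (qx / qw) • w := by abel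
          rw [h2]
          exact Submodule.add_mem_sup h1 (Submodule.smul_mem _ _ (Submodule.mem_span_singleton_self w))
        have hfs : FiniteDimensional ℚ (span ℚ {w} : Submodule ℚ (ℂ × ℂ)) :=
          FiniteDimensional.span_singleton ℚ w
        refine (Submodule.finrank_mono hle).trans ?_
        refine (Submodule.finrank_add_le_finrank_add_finrank _ _).trans ?_
        have e4 : finrank ℚ (Submodule.span ℚ {w} : Submodule ℚ (ℂ × ℂ)) ≤ 1 := by
          have := finrank_span_le_card (R := ℚ) ({w} : Set (ℂ × ℂ))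
          simpa using this
        omega
      -- a new coordinate
      have hc : ∃ c ∈ co V, c ∉ M.closure F := by
        rcases hg pw hpw qw hqw with hh | hh
        · exact ⟨_, ⟨_, hw, Or.inl rfl⟩, by rw [hwe]; simpa using hh⟩
        · exact ⟨_, ⟨_, hw, Or.inr rfl⟩, by rw [hwe]; simpa using hh⟩
      obtain ⟨c, hcV, hcF⟩ := hc
      have hcn : c ∉ M.closure (F0 ∪ co (V ⊓ P)) := by
        intro hcc
        apply hcF
        have : M.closure (F0 ∪ co (V ⊓ P)) ⊆ M.closure F := by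
          apply cl_le
          rintro x (hx | hx)
          · exact cl_self (hF0 hx)
          · exact h.co_sub inf_le_right hx
        exact this hcc
      obtain ⟨I, hI1, hI2, hI3⟩ := hI (V ⊓ P) inf_le_right hf1
      have e : V ⊓ P ⊓ P0 = V ⊓ P0 := by rw [inf_assoc, inf_eq_right.2 h0P]
      rw [e] at hI3
      have hcI : c ∉ M.closure (F0 ∪ I) := fun h0 =>
        hcn (cl_mono (union_subset_union_right _ hI1) h0)
      have hcI' : c ∉ I := fun h0 => hcI (cl_self (Or.inr h0))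
      classical
      refine ⟨Insert.insert c I, ?_, ?_, ?_⟩
      · rw [Finset.coe_insert]
        rintro x (rfl | hx)
        · exact hcV
        · exact co_mono inf_le_left (hI1 hx)
      · rw [Finset.coe_insert]
        exact hI2.insert hcI
      · rw [Finset.card_insert_of_notMem hcI']
        omega

/-- extension by a pair with a transcendental second value -/
theorem forthGS {F0 : Set ℂ} {P0 P : Submodule ℚ (ℂ × ℂ)} {F F' : Set ℂ} (hF : F ⊆ F')
    (hF0 : F0 ⊆ F) (h0P : P0 ≤ P) (h : SI P F) (hI : IneqS F0 P0 P) {x w : ℂ}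
    (hx : x ∈ M.closure F') (hxP : ¬ ∃ z, (x, z) ∈ P) (hw : Complex.exp w ∈ M.closure F')
    (hw' : Complex.exp w ∉ M.closure F) :
    SI (P ⊔ Submodule.span ℚ {(x, w)}) F' ∧ IneqS F0 P0 (P ⊔ Submodule.span ℚ {(x, w)}) := by
  have key : ∀ p ∈ P, ∀ q : ℚ, q ≠ 0 → Complex.exp (p.2 + q • w) ∉ M.closure F := by
    intro p hp q hq hh
    rw [add_comm] at hh
    exact hw' (cl_exp_of_smul_add hq hh (h.exp_mem p hp))
  refine stepS hF hF0 h0P h hI (x, w) hx hw ?_ ?_ ?_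
  · intro p hp q hq h0
    apply hxP
    refine ⟨-(q⁻¹ • p.2), ?_⟩
    have hm : -(q⁻¹ • p) ∈ P := P.neg_mem (P.smul_mem _ hp)
    have hxe : x = -(q⁻¹ • p.1) := by
      have : q • x = -p.1 := by
        have := h0
        simp only at this
        exact eq_neg_of_add_eq_zero_right this
      calc x = q⁻¹ • (q • x) := by rw [smul_smul, inv_mul_cancel₀ hq, one_smul]
        _ = -(q⁻¹ • p.1) := by rw [this, smul_neg]
    have : (x, -(q⁻¹ • p.2)) = -(q⁻¹ • p) := by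
      ext1
      · exact hxe
      · rfl
    rw [this]; exact hm
  · intro p hp q hq h0
    apply key p hp q hq
    have h0' : p.2 + q • w = 0 := h0
    rw [h0', Complex.exp_zero]
    simpa using cl_ratCast F 1
  · intro p hp q hq
    exact Or.inr (key p hp q hq)

/-- extension by a pair with a transcendental first value -/
theorem backGS {F0 : Set ℂ} {P0 P : Submodule ℚ (ℂ × ℂ)} {F F' : Set ℂ} (hF : F ⊆ F')
    (hF0 : F0 ⊆ F) (h0P : P0 ≤ P) (h : SI P F) (hI : IneqS F0 P0 P) {g w : ℂ}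
    (hg : g ∈ M.closure F') (hg' : g ∉ M.closure F) (hxP : ¬ ∃ u, (u, w) ∈ P)
    (hw : Complex.exp w ∈ M.closure F') :
    SI (P ⊔ Submodule.span ℚ {(g, w)}) F' ∧ IneqS F0 P0 (P ⊔ Submodule.span ℚ {(g, w)}) := by
  have key : ∀ p ∈ P, ∀ q : ℚ, q ≠ 0 → p.1 + q • g ∉ M.closure F := by
    intro p hp q hq hh
    have h1 : q • g ∈ M.closure F := (cl_add_iff (h.fst_mem p hp)).1 hh
    have h2 := cl_smul q⁻¹ h1
    rw [smul_smul, inv_mul_cancel₀ hq, one_smul] at h2
    exact hg' h2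
  refine stepS hF hF0 h0P h hI (g, w) hg hw ?_ ?_ ?_
  · intro p hp q hq h0
    apply key p hp q hq
    have h0' : p.1 + q • g = 0 := h0
    rw [h0']
    simpa using cl_ratCast F 0
  · intro p hp q hq h0
    apply hxP
    refine ⟨-(q⁻¹ • p.1), ?_⟩
    have hm : -(q⁻¹ • p) ∈ P := P.neg_mem (P.smul_mem _ hp)
    have hxe : w = -(q⁻¹ • p.2) := by
      have : q • w = -p.2 := by
        have := h0
        simp only at this
        exact eq_neg_of_add_eq_zero_right this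
      calc w = q⁻¹ • (q • w) := by rw [smul_smul, inv_mul_cancel₀ hq, one_smul]
        _ = -(q⁻¹ • p.2) := by rw [this, smul_neg]
    have : (-(q⁻¹ • p.1), w) = -(q⁻¹ • p) := by
      ext1
      · rfl
      · exact hxe
    rw [this]; exact hm
  · intro p hp q hq
    exact Or.inl (key p hp q hq)

/-- the induction statement -/
structure ExtS (S : Set ℂ) (t : ℕ → ℂ) (P0 P P' : Submodule ℚ (ℂ × ℂ)) (N1 : ℕ) : Prop where
  le : P ≤ P'
  st : SI P' (FF S t N1)
  ineq : IneqS S P0 P'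
  cs : CS P'

theorem ExtS.trans {S : Set ℂ} {t : ℕ → ℂ} {P0 P P' P'' : Submodule ℚ (ℂ × ℂ)} {N1 N2 : ℕ}
    (h1 : ExtS S t P0 P P' N1) (h2 : ExtS S t P0 P' P'' N2) : ExtS S t P0 P P'' N2 :=
  ⟨h1.le.trans h2.le, h2.st, h2.ineq, h2.cs⟩

section

variable {S : Set ℂ} {t : ℕ → ℂ} (ht : FreeS S t) {P0 : Submodule ℚ (ℂ × ℂ)}
include ht

/-- forth for `x` real or imaginary -/
theorem forthCS {P : Submodule ℚ (ℂ × ℂ)} {N : ℕ} (h0P : P0 ≤ P)
    (h : SI P (FF S t N)) (hI : IneqS S P0 P) (hc : CS P) {x : ℂ} {N' : ℕ}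
    (hx : x ∈ M.closure (FF S t N')) (hcx : conj x = x ∨ conj x = -x) :
    ∃ (P' : Submodule ℚ (ℂ × ℂ)) (N1 : ℕ), ExtS S t P0 P P' N1 ∧ ∃ z, (x, z) ∈ P' := by
  by_cases hxP : ∃ z, (x, z) ∈ P
  · exact ⟨P, N, ⟨le_rfl, h, hI, hc⟩, hxP⟩
  · set L := max N N' with hL
    have h' := h.mono (FF_mono S t (le_max_left N N'))
    have hx' := cl_mono (FF_mono S t (le_max_right N N')) hx
    have hsub := FF_mono S t (Nat.le_succ L)
    have hF0 : S ⊆ FF S t L := subset_union_left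
    have hx'' := cl_mono hsub hx'
    obtain ⟨s, hs0, hs⟩ := ht.pos L
    have hsF : (s : ℂ) ∉ M.closure (FF S t L) := hs ▸ ht.free L
    have hsF' : (s : ℂ) ∈ M.closure (FF S t (L + 1)) := by
      rw [← hs]; exact cl_self (Or.inr ⟨L, Nat.lt_succ_self L, rfl⟩)
    rcases hcx with hcx | hcx
    · have hexp : Complex.exp ((Real.log s : ℝ) : ℂ) = s := by
        rw [← Complex.ofReal_exp, Real.exp_log hs0]
      obtain ⟨g1, g2⟩ := forthGS hsub hF0 h0P h' hI (w := ((Real.log s : ℝ) : ℂ)) hx'' hxP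
        (by rw [hexp]; exact hsF') (by rw [hexp]; exact hsF)
      refine ⟨_, L + 1, ⟨le_sup_left, g1, g2, hc.sup (Or.inl ?_)⟩, _,
        Submodule.mem_sup_right (Submodule.mem_span_singleton_self _)⟩
      ext1
      · exact hcx
      · exact Complex.conj_ofReal _
    · obtain ⟨θ, hθ1, hθ2⟩ := exists_unit hsF hsub hsF'
      obtain ⟨g1, g2⟩ := forthGS hsub hF0 h0P h' hI (w := (θ : ℂ) * Complex.I) hx'' hxP hθ2 hθ1
      refine ⟨_, L + 1, ⟨le_sup_left, g1, g2, hc.sup (Or.inr ?_)⟩, _,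
        Submodule.mem_sup_right (Submodule.mem_span_singleton_self _)⟩
      ext1
      · exact hcx
      · change conj ((θ : ℂ) * Complex.I) = -((θ : ℂ) * Complex.I)
        rw [map_mul, Complex.conj_ofReal, Complex.conj_I, mul_neg]

/-- back for `w` real or imaginary -/
theorem backCS {P : Submodule ℚ (ℂ × ℂ)} {N : ℕ} (h0P : P0 ≤ P)
    (h : SI P (FF S t N)) (hI : IneqS S P0 P) (hc : CS P) {w : ℂ} {N' : ℕ}
    (hx : Complex.exp w ∈ M.closure (FF S t N')) (hcw : conj w = w ∨ conj w = -w) :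
    ∃ (P' : Submodule ℚ (ℂ × ℂ)) (N1 : ℕ), ExtS S t P0 P P' N1 ∧ ∃ u, (u, w) ∈ P' := by
  by_cases hxP : ∃ u, (u, w) ∈ P
  · exact ⟨P, N, ⟨le_rfl, h, hI, hc⟩, hxP⟩
  · set L := max N N' with hL
    have h' := h.mono (FF_mono S t (le_max_left N N'))
    have hx' := cl_mono (FF_mono S t (le_max_right N N')) hx
    have hsub := FF_mono S t (Nat.le_succ L)
    have hF0 : S ⊆ FF S t L := subset_union_left
    have hx'' := cl_mono hsub hx'
    have hsF : t L ∉ M.closure (FF S t L) := ht.free L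
    have hsF' : t L ∈ M.closure (FF S t (L + 1)) := cl_self (Or.inr ⟨L, Nat.lt_succ_self L, rfl⟩)
    rcases hcw with hcw | hcw
    · obtain ⟨g1, g2⟩ := backGS hsub hF0 h0P h' hI hsF' hsF hxP hx''
      refine ⟨_, L + 1, ⟨le_sup_left, g1, g2, hc.sup (Or.inl ?_)⟩, _,
        Submodule.mem_sup_right (Submodule.mem_span_singleton_self _)⟩
      ext1
      · exact (ht.pos L).conj
      · exact hcw
    · have e1 : Complex.I * t L ∈ M.closure (FF S t (L + 1)) := cl_mul (cl_I _) hsF'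
      have e2 : Complex.I * t L ∉ M.closure (FF S t L) :=
        fun hh => hsF ((cl_mul_iff (cl_I _) Complex.I_ne_zero).1 hh)
      obtain ⟨g1, g2⟩ := backGS hsub hF0 h0P h' hI e1 e2 hxP hx''
      refine ⟨_, L + 1, ⟨le_sup_left, g1, g2, hc.sup (Or.inr ?_)⟩, _,
        Submodule.mem_sup_right (Submodule.mem_span_singleton_self _)⟩
      ext1
      · change conj (Complex.I * t L) = -(Complex.I * t L)
        rw [map_mul, Complex.conj_I, (ht.pos L).conj, neg_mul]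
      · exact hcw

theorem bothCS {P : Submodule ℚ (ℂ × ℂ)} {N : ℕ} (h0P : P0 ≤ P)
    (h : SI P (FF S t N)) (hI : IneqS S P0 P) (hc : CS P) {x : ℂ} {N' : ℕ}
    (hx : x ∈ M.closure (FF S t N')) :
    ∃ (P' : Submodule ℚ (ℂ × ℂ)) (N1 : ℕ), ExtS S t P0 P P' N1 ∧
      (∃ z, (x, z) ∈ P') ∧ (x ≠ 0 → ∃ u, (u, Complex.log x) ∈ P') := by
  have hreal : ∀ y ∈ FF S t N', conj y = y := ht.conj_fix
  -- real part
  obtain ⟨P1, N1, e1, z1, hz1⟩ := forthCS ht h0P h hI hc (re_mem hreal hx)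
    (Or.inl (Complex.conj_ofReal _))
  -- imaginary part
  obtain ⟨P2, N2, e2, z2, hz2⟩ := forthCS ht (h0P.trans e1.le) e1.st e1.ineq e1.cs
    (x := (x.im : ℂ) * Complex.I) (cl_mul (im_mem hreal hx) (cl_I _))
    (Or.inr (by rw [map_mul, Complex.conj_ofReal, Complex.conj_I, mul_neg]))
  have hxz : (x, z1 + z2) ∈ P2 := by
    have := P2.add_mem (e2.le hz1) hz2
    have e : ((x.re : ℂ), z1) + ((x.im : ℂ) * Complex.I, z2) = (x, z1 + z2) := by
      ext1
      · exact Complex.re_add_im x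
      · rfl
    rwa [e] at this
  by_cases hx0 : x = 0
  · exact ⟨P2, N2, e1.trans e2, ⟨_, hxz⟩, fun hh => absurd hx0 hh⟩
  · have hn0 : 0 < ‖x‖ := norm_pos_iff.2 hx0
    have hnm := norm_mem hreal hx
    have hexp1 : Complex.exp ((Real.log ‖x‖ : ℝ) : ℂ) = ((‖x‖ : ℝ) : ℂ) := by
      rw [← Complex.ofReal_exp, Real.exp_log hn0]
    obtain ⟨P3, N3, e3, u1, hu1⟩ := backCS ht (h0P.trans (e1.trans e2).le) e2.st e2.ineq
      e2.cs (w := ((Real.log ‖x‖ : ℝ) : ℂ))
      (N' := N') (by rw [hexp1]; exact hnm) (Or.inl (Complex.conj_ofReal _))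
    have hexp2 : Complex.exp ((x.arg : ℂ) * Complex.I) ∈ M.closure (FF S t N') := by
      have h1 := Complex.norm_mul_exp_arg_mul_I x
      have h2 : Complex.exp ((x.arg : ℂ) * Complex.I) = x / ((‖x‖ : ℝ) : ℂ) := by
        rw [eq_div_iff (by exact_mod_cast hn0.ne'), mul_comm]
        exact h1
      rw [h2]
      exact cl_div hx hnm
    obtain ⟨P4, N4, e4, u2, hu2⟩ := backCS ht (h0P.trans ((e1.trans e2).trans e3).le) e3.st
      e3.ineq e3.cs (w := (x.arg : ℂ) * Complex.I)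
      (N' := N') hexp2
      (Or.inr (by rw [map_mul, Complex.conj_ofReal, Complex.conj_I, mul_neg]))
    refine ⟨P4, N4, ((e1.trans e2).trans e3).trans e4, ⟨_, e4.le (e3.le hxz)⟩, fun _ => ?_⟩
    refine ⟨u1 + u2, ?_⟩
    have := P4.add_mem (e4.le hu1) hu2
    have e : (u1, ((Real.log ‖x‖ : ℝ) : ℂ)) + (u2, (x.arg : ℂ) * Complex.I) =
        (u1 + u2, Complex.log x) := rfl
    rwa [e] at this

end

/-- a stage -/
def StgS (S : Set ℂ) (t : ℕ → ℂ) (P0 : Submodule ℚ (ℂ × ℂ)) : Type :=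
  {q : Submodule ℚ (ℂ × ℂ) × ℕ // ExtS S t P0 P0 q.1 q.2}

theorem mem_range_closureS {S : Set ℂ} {t : ℕ → ℂ} {x : ℂ} (hx : x ∈ M.closure (S ∪ range t)) :
    ∃ N, x ∈ M.closure (FF S t N) := by
  obtain ⟨I, hI, hfin, -, hxI⟩ := Matroid.exists_mem_finite_closure_of_mem_closure hx
  have hI' : ∀ x ∈ I, ∃ n, x ∈ FF S t n := by
    intro x hx
    rcases hI hx with h | ⟨n, rfl⟩
    · exact ⟨0, Or.inl h⟩
    · exact ⟨n + 1, Or.inr ⟨n, Nat.lt_succ_self n, rfl⟩⟩
  choose! g hg using hI'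
  obtain ⟨N, hN⟩ := (hfin.image g).bddAbove
  exact ⟨N, cl_mono (fun x hx => FF_mono S t (hN ⟨x, hx, rfl⟩) (hg x hx)) hxI⟩

theorem chainCS {S : Set ℂ} {t : ℕ → ℂ} (ht : FreeS S t) {P0 P1 : Submodule ℚ (ℂ × ℂ)} {N1 : ℕ}
    (h1 : ExtS S t P0 P0 P1 N1) :
    ∃ (P : ℕ → Submodule ℚ (ℂ × ℂ)) (N : ℕ → ℕ), P 0 = P1 ∧ Monotone P ∧
      (∀ n, ExtS S t P0 P0 (P n) (N n)) ∧
      ∀ x ∈ M.closure (S ∪ range t), ∃ n, (∃ z, (x, z) ∈ P n) ∧
        (x ≠ 0 → ∃ u, (u, Complex.log x) ∈ P n) := by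
  have hcount : (M.closure (S ∪ range t)).Countable := countable_closure (ht.count.union (countable_range t))
  have hne : (M.closure (S ∪ range t)).Nonempty := ⟨_, cl_ratCast (S ∪ range t) 0⟩
  obtain ⟨ex, hex⟩ := hcount.exists_eq_range hne
  have hexm : ∀ n, ex n ∈ M.closure (S ∪ range t) := fun n => by rw [hex]; exact mem_range_self n
  have hstep : ∀ (n : ℕ) (q : StgS S t P0), ∃ q' : StgS S t P0, q.1.1 ≤ q'.1.1 ∧
      (∃ z, (ex n, z) ∈ q'.1.1) ∧ (ex n ≠ 0 → ∃ u, (u, Complex.log (ex n)) ∈ q'.1.1) := by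
    rintro n ⟨⟨P, N⟩, hq⟩
    obtain ⟨N', hN'⟩ := mem_range_closureS (hexm n)
    obtain ⟨P', N1, e, h4, h5⟩ := bothCS ht hq.le hq.st hq.ineq hq.cs hN'
    exact ⟨⟨⟨P', N1⟩, hq.trans e⟩, e.le, h4, h5⟩
  choose nx hnx1 hnx3 hnx4 using hstep
  let f : ℕ → StgS S t P0 := fun n => Nat.rec ⟨(P1, N1), h1⟩ (fun n q => nx n q) n
  have hfs : ∀ n, f (n + 1) = nx n (f n) := fun n => rfl
  have hmono : Monotone fun n => (f n).1.1 := monotone_nat_of_le_succ fun n => by
    rw [hfs]; exact hnx1 n (f n)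
  refine ⟨fun n => (f n).1.1, fun n => (f n).1.2, rfl, hmono, fun n => (f n).2, ?_⟩
  intro x hx
  rw [hex] at hx
  obtain ⟨n, rfl⟩ := hx
  refine ⟨n + 1, ?_, ?_⟩
  · simp only [hfs]; exact hnx3 n (f n)
  · simp only [hfs]; exact hnx4 n (f n)

theorem extS {S : Set ℂ} {t : ℕ → ℂ} (ht : FreeS S t) {P0 P1 : Submodule ℚ (ℂ × ℂ)} {N1 : ℕ}
    (h1 : ExtS S t P0 P0 P1 N1) (τ : ℂ) (hτ : (τ, 2 * Real.pi * Complex.I) ∈ P1) :
    ∃ (E : clF (S ∪ range t) → clF (S ∪ range t)) (lam : clF (S ∪ range t) →ₗ[ℚ] ℂ),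
      (∀ x, (E x : ℂ) = Complex.exp (lam x)) ∧
      (∀ y, y ≠ 0 → ∃ x, E x = y) ∧
      (∀ x, E x = 1 ↔ ∃ n : ℤ, (x : ℂ) = n * τ) ∧
      (∀ p ∈ P1, ∃ x : clF (S ∪ range t), (x : ℂ) = p.1 ∧ lam x = p.2) ∧
      (∀ V : Submodule ℚ (clF (S ∪ range t)), FiniteDimensional ℚ V →
        ∃ I : Finset ℂ, (I : Set ℂ) ⊆ co (V.map (gr lam)) ∧ IndS S I ∧
          finrank ℚ V ≤ I.card + finrank ℚ (V.map (gr lam) ⊓ P0 : Submodule ℚ (ℂ × ℂ))) ∧
      (∀ x y : clF (S ∪ range t), (y : ℂ) = conj (x : ℂ) → lam y = conj (lam x)) := by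
  obtain ⟨P, N, hP0, hmono, hE, hex⟩ := chainCS ht h1
  have hst : ∀ n, SI (P n) (FF S t (N n)) := fun n => (hE n).st
  -- uniqueness
  have huniq : ∀ (x z z' : ℂ) (n m : ℕ), (x, z) ∈ P n → (x, z') ∈ P m → z = z' := by
    intro x z z' n m h1 h2
    have h1' := hmono (le_max_left n m) h1
    have h2' := hmono (le_max_right n m) h2
    have h3 := (P (max n m)).sub_mem h1' h2'
    have h4 := (hst (max n m)).inj1 _ h3 (by simp)
    have h5 := congrArg Prod.snd h4
    simpa [sub_eq_zero] using h5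
  have huniq2 : ∀ (x x' z : ℂ) (n m : ℕ), (x, z) ∈ P n → (x', z) ∈ P m → x = x' := by
    intro x x' z n m h1 h2
    have h1' := hmono (le_max_left n m) h1
    have h2' := hmono (le_max_right n m) h2
    have h3 := (P (max n m)).sub_mem h1' h2'
    have h4 := (hst (max n m)).inj2 _ h3 (by simp)
    have h5 := congrArg Prod.fst h4
    simpa [sub_eq_zero] using h5
  have hex1 : ∀ x : clF (S ∪ range t), ∃ z : ℂ, ∃ n, ((x : ℂ), z) ∈ P n := by
    intro x
    obtain ⟨n, ⟨z, hz⟩, -⟩ := hex x (mem_cl.2 x.2)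
    exact ⟨z, n, hz⟩
  choose l0 hl0 using hex1
  have hmemK : ∀ n, ∀ p ∈ P n, p.1 ∈ clF (S ∪ range t) := by
    intro n p hp
    exact mem_cl.1 (cl_mono (union_subset_union_right S (image_subset_range t _)) ((hst n).fst_mem p hp))
  have hmemE : ∀ n, ∀ p ∈ P n, Complex.exp p.2 ∈ clF (S ∪ range t) := by
    intro n p hp
    exact mem_cl.1 (cl_mono (union_subset_union_right S (image_subset_range t _)) ((hst n).exp_mem p hp))
  let lam : clF (S ∪ range t) →ₗ[ℚ] ℂ :=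
    { toFun := l0
      map_add' := by
        intro x y
        obtain ⟨n, hn⟩ := hl0 x
        obtain ⟨m, hm⟩ := hl0 y
        obtain ⟨k, hk⟩ := hl0 (x + y)
        have h1 := hmono (le_max_left n m) hn
        have h2 := hmono (le_max_right n m) hm
        have h3 := (P (max n m)).add_mem h1 h2
        exact huniq _ _ _ k (max n m) hk h3
      map_smul' := by
        intro q x
        obtain ⟨n, hn⟩ := hl0 x
        obtain ⟨k, hk⟩ := hl0 (q • x)
        have h3 := (P n).smul_mem q hn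
        exact huniq _ _ _ k n hk h3 }
  have hlam : ∀ x : clF (S ∪ range t), ∃ n, ((x : ℂ), lam x) ∈ P n := hl0
  have hlam2 : ∀ (x : clF (S ∪ range t)) (z : ℂ) (n : ℕ), ((x : ℂ), z) ∈ P n → lam x = z := by
    intro x z n h
    obtain ⟨m, hm⟩ := hlam x
    exact huniq _ _ _ m n hm h
  refine ⟨fun x => ⟨Complex.exp (lam x), ?_⟩, lam, fun x => rfl, ?_, ?_, ?_, ?_, ?_⟩
  · obtain ⟨n, hn⟩ := hlam x
    exact hmemE n _ hn
  · intro y hy
    have hy' : (y : ℂ) ≠ 0 := fun h => hy (Subtype.ext h)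
    obtain ⟨n, -, h2⟩ := hex y (mem_cl.2 y.2)
    obtain ⟨u, hu⟩ := h2 hy'
    refine ⟨⟨u, hmemK n _ hu⟩, ?_⟩
    apply Subtype.ext
    change Complex.exp (lam ⟨u, _⟩) = y
    rw [hlam2 ⟨u, hmemK n _ hu⟩ _ n hu, Complex.exp_log hy']
  · intro x
    have hτn : ∀ n : ℤ, ((n : ℂ) * τ, (n : ℂ) * (2 * Real.pi * Complex.I)) ∈ P 0 := by
      intro n
      have := (P 0).smul_mem (n : ℚ) (hP0 ▸ hτ)
      have e : (n : ℚ) • (τ, 2 * (Real.pi : ℂ) * Complex.I) =
          ((n : ℂ) * τ, (n : ℂ) * (2 * Real.pi * Complex.I)) := by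
        ext1
        · change (n : ℚ) • τ = _
          rw [Algebra.smul_def]; simp
        · change (n : ℚ) • (2 * (Real.pi : ℂ) * Complex.I) = _
          rw [Algebra.smul_def]; simp
      rwa [e] at this
    constructor
    · intro h
      have h1 : Complex.exp (lam x) = 1 := congrArg Subtype.val h
      obtain ⟨n, hn⟩ := Complex.exp_eq_one_iff.1 h1
      refine ⟨n, ?_⟩
      obtain ⟨m, hm⟩ := hlam x
      rw [hn] at hm
      exact huniq2 _ _ _ m 0 hm (hτn n)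
    · rintro ⟨n, hn⟩
      apply Subtype.ext
      change Complex.exp (lam x) = 1
      rw [hlam2 x _ 0 (hn ▸ hτn n)]
      exact Complex.exp_int_mul_two_pi_mul_I n
  · intro p hp
    rw [← hP0] at hp
    refine ⟨⟨p.1, hmemK 0 p hp⟩, rfl, ?_⟩
    exact hlam2 _ _ 0 hp
  · intro V hV
    have : FiniteDimensional ℚ (V.map (gr lam)) := inferInstance
    -- contained in a stage
    have hstage : ∃ n, V.map (gr lam) ≤ P n := by
      obtain ⟨S, hS⟩ := (Module.Finite.iff_fg.1 this : (V.map (gr lam)).FG)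
      have hSm : ∀ s ∈ (S : Set (ℂ × ℂ)), ∃ n, s ∈ P n := by
        intro s hs
        have : s ∈ V.map (gr lam) := by rw [← hS]; exact Submodule.subset_span hs
        obtain ⟨x, -, rfl⟩ := Submodule.mem_map.1 this
        exact hlam x
      choose! g hg using hSm
      obtain ⟨n, hn⟩ := (S.finite_toSet.image g).bddAbove
      refine ⟨n, ?_⟩
      rw [← hS]
      apply Submodule.span_le.2
      intro s hs
      exact hmono (hn ⟨s, hs, rfl⟩) (hg s hs)
    obtain ⟨n, hn⟩ := hstage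
    have h := (hE n).ineq _ hn this
    have e : finrank ℚ (V.map (gr lam)) = finrank ℚ V :=
      (LinearEquiv.finrank_eq (Submodule.equivMapOfInjective (gr lam) (gr_inj lam) V)).symm
    rwa [e] at h
  · intro x y hxy
    obtain ⟨n, hn⟩ := hlam x
    have := (hE n).cs _ hn
    apply hlam2 y _ n
    rw [hxy]; exact this

end Pool.Agent.Helper56.HS
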