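import Pool.Agent.Helper56.HS.Def
import Pool.Agent.Helper56.HS.Ext2

/-! Statements of the packages of project HS (`MP_9cd479_nt`). -/

set_option autoImplicit false

namespace Pool.Agent.Helper56.HS

open Pool.Agent.Helper35.EM Pool.Agent.Helper56.SA Pool.Agent.Helper56.EM Pool.Agent.Helper56.NL
  Module Submodule Set ComplexConjugate

/-- rank functions -/
structure RF (r : ℕ → ℕ) : Prop where
  zero : r 0 = 0
  one : r 1 = 1
  mono : ∀ k, r k ≤ r (k + 1)
  step : ∀ k, r (k + 1) ≤ r k + 1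

/-- Package FREE: two free sequences of positive reals, `t` free over `s` and beginning with `π`
(split a free sequence which begins with `π`, `Pool.Agent.Helper82.NL.exists_freeR_pi`, into even and
odd terms). -/
def S_FREE : Prop := ∃ s t : ℕ → ℝ, FreeR (fun k => (s k : ℂ)) ∧
  FreeS (range fun k => (s k : ℂ)) (fun k => (t k : ℂ)) ∧ t 0 = Real.pi

/-- Package MULT: the numbers `1 + s ^ (2 ^ k)`, `k = 0, 1, ...`, are multiplicatively independent modulo
algebraic numbers for a positive transcendental number `s`. (Integers `m k`; polynomials over the algebraic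
numbers; evaluate at a root of `1 + X ^ (2 ^ k)`, which is no root of the others.) -/
def S_MULT : Prop := ∀ s : ℝ, 0 < s → (s : ℂ) ∉ M.closure ∅ → ∀ (N : ℕ) (q : Fin N → ℚ),
  Complex.exp (((∑ k, (q k : ℝ) * Real.log (1 + s ^ 2 ^ (k : ℕ)) : ℝ) : ℂ)) ∈ M.closure ∅ → q = 0

/-- the numbers `x i` -/
noncomputable def xx (r : ℕ → ℕ) (s : ℕ → ℝ) (i : ℕ) : ℝ :=
  ∑ j ∈ Finset.range (r (i + 1)), s j ^ (i + 1)

/-- the numbers `E (x i)` -/
noncomputable def uu (s : ℕ → ℝ) (i : ℕ) : ℝ := 1 + s 0 ^ 2 ^ i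

/-- the space of pairs -/
noncomputable def PX (r : ℕ → ℕ) (s : ℕ → ℝ) : Submodule ℚ (ℂ × ℂ) :=
  span ℚ (range fun i : ℕ => (((xx r s i : ℝ) : ℂ), ((Real.log (uu s i) : ℝ) : ℂ)))

/-- Package RK (helper78) -/
def S_RK : Prop := ∀ r : ℕ → ℕ, RF r → ∀ s : ℕ → ℝ, FreeR (fun k => (s k : ℂ)) → ∀ (N : ℕ)
  (U : Submodule ℚ (Fin N → ℚ)), ∃ f : Fin (r (finrank ℚ U)) → (Fin N → ℚ), (∀ a, f a ∈ U) ∧
    AlgebraicIndependent ℚ fun a => ∑ i, (f a i : ℂ) * ((xx r s i : ℝ) : ℂ)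

/-- properties of the base -/
structure HB (r : ℕ → ℕ) (S : Set ℂ) (P0 : Submodule ℚ (ℂ × ℂ)) : Prop where
  st : SI P0 S
  cs : CS P0
  real : ∀ q ∈ P0, ∃ x : ℝ, q.2 = x
  alg : ∀ q ∈ P0, q.1 ∈ M.closure ∅ → q = 0
  alge : ∀ q ∈ P0, Complex.exp q.2 ∈ M.closure ∅ → q = 0
  low : ∀ U ≤ P0, FiniteDimensional ℚ U → ((r (finrank ℚ U) : ℕ) : ℕ∞) ≤ M.eRk (co U)
  up : ∀ k : ℕ, ∃ U ≤ P0, FiniteDimensional ℚ U ∧ finrank ℚ U = k ∧ M.eRk (co U) ≤ (r k : ℕ)

/-- Package XB: properties of the space `PX` (from RK and MULT). A finite dimensional subspace `U` of `PX`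
is contained in the span of finitely many generators, and corresponds to a subspace of `Fin N → ℚ`, as the
generators are linearly independent (MULT); `up`: the first `k` generators, whose coordinates are in the
closure of `s 0, ..., s (r k - 1)` (`k ≥ 1`). -/
def S_XB : Prop := S_RK → S_MULT → ∀ r : ℕ → ℕ, RF r → ∀ s : ℕ → ℝ, FreeR (fun k => (s k : ℂ)) →
  HB r (range fun k => (s k : ℂ)) (PX r s)

/-- Package IND: independence over the closure of an arbitrary set (`AlgebraicIndependent.sumElim_iff`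
with a basis of `S`, extension of scalars to the algebraic closure; compare `Helper28/NL/AIC.lean`,
`Helper22/GF/AI.lean`). -/
def S_IND : Prop := ∀ (S : Set ℂ) (I : Finset ℂ), IndS S (I : Set ℂ) →
  AlgebraicIndependent (clF S) (fun x : I => (x : ℂ))

/-- the rank inequality in the field -/
def Rk {K : IntermediateField ℚ ℂ} (lam : K →ₗ[ℚ] ℂ) (S : Set ℂ) (P0 : Submodule ℚ (ℂ × ℂ)) : Prop :=
  ∀ V : Submodule ℚ K, FiniteDimensional ℚ V →
    ∃ I : Finset ℂ, (I : Set ℂ) ⊆ co (V.map (gr lam)) ∧ IndS S I ∧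
      finrank ℚ V ≤ I.card + finrank ℚ (V.map (gr lam) ⊓ P0 : Submodule ℚ (ℂ × ℂ))

/-- Package SCHX: Schanuel modulo `P0` (from IND; the elements of `I` are in the closure of
`S`, the `z j` and `exp (lam (z j))`; choose a maximal independent subset of the latter; compare
`Helper28/NL/SCH.lean`). -/
def S_SCHX : Prop := S_IND → ∀ (K : IntermediateField ℚ ℂ) (lam : K →ₗ[ℚ] ℂ) (S : Set ℂ)
  (P0 : Submodule ℚ (ℂ × ℂ)), Rk lam S P0 → ∀ (n : ℕ) (z : Fin n → K),
    (∀ q : Fin n → ℚ, gr lam (∑ i, q i • z i) ∈ P0 → q = 0) →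
      ∃ f : Fin n → ℂ, (∀ i, f i ∈ range (fun j => (z j : ℂ)) ∪ range fun j => Complex.exp (lam (z j))) ∧
        AlgebraicIndependent (clF S) f

/-- Package GEL: Gel'fond's conjecture from the rank inequality (`V` = span of the `α i`, `l j`, of
dimension `a + b`; `V ∩ P0 = 0`; the elements of `I` are in the closure of the `a + b` numbers). -/
def S_GEL : Prop := ∀ (K : IntermediateField ℚ ℂ) (lam : K →ₗ[ℚ] ℂ) (S : Set ℂ)
  (P0 : Submodule ℚ (ℂ × ℂ)), SI P0 S → (∀ q ∈ P0, q.1 ∈ M.closure ∅ → q = 0) →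
  (∀ q ∈ P0, Complex.exp q.2 ∈ M.closure ∅ → q = 0) → Rk lam S P0 → ∀ (a b : ℕ) (α : Fin a → K) (l : Fin b → K), (∀ i, (α i : ℂ) ∈ M.closure ∅) →
    (∀ j, Complex.exp (lam (l j)) ∈ M.closure ∅) → LinearIndependent ℚ α → LinearIndependent ℚ l →
      AlgebraicIndependent ℚ
        (Sum.elim (fun i => Complex.exp (lam (α i))) (fun j => (l j : ℂ)))

/-- Package LOW: the lower bound (`rk (co V) ≥ rk (co U) + |I| ≥ r (dim U) + dim V - dim U ≥ r (dim V)` for
`U = V ∩ P0`). -/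
def S_LOW : Prop := ∀ (r : ℕ → ℕ), RF r → ∀ (K : IntermediateField ℚ ℂ) (lam : K →ₗ[ℚ] ℂ) (S : Set ℂ)
  (P0 : Submodule ℚ (ℂ × ℂ)), HB r S P0 → Rk lam S P0 →
  ∀ V : Submodule ℚ K, FiniteDimensional ℚ V →
    ((r (finrank ℚ V) : ℕ) : ℕ∞) ≤ M.eRk (co (V.map (gr lam)))

/-- Package TRD: transcendence degree and rank. -/
def S_TRD : Prop := ∀ (A : Set ℂ) (k : ℕ),
  (((k : ℕ∞) ≤ M.eRk A ↔ (k : Cardinal) ≤ Algebra.trdeg ℚ (IntermediateField.adjoin ℚ A)) ∧
    (M.eRk A ≤ (k : ℕ∞) ↔ Algebra.trdeg ℚ (IntermediateField.adjoin ℚ A) ≤ (k : Cardinal)))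

/-- Package NEC: a defect function has increments `0` or `1`, in fields in which the theorem of Lindemann and
Weierstrass holds (`d n ≤ d (n + 1)`: add an algebraic number to the tuple, one that is not in the span;
`d (n + 1) ≤ d n + 1`: omit the last number; `d 1 = 0`: Hermite-Lindemann). -/
def S_NEC : Prop := ∀ (F : NL.ExpField) (d : ℕ → ℕ), NL.LindemannWeierstrass F → Defect F d →
  d 0 = 0 ∧ d 1 = 0 ∧ ∀ n, d n ≤ d (n + 1) ∧ d (n + 1) ≤ d n + 1

end Pool.Agent.Helper56.HS
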