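import Pool.Agent.Helper56.NL.Def

/-!
# The defect function of Schanuel's conjecture in exponential fields
-/

set_option autoImplicit false

namespace Pool.Agent.Helper56.HS

open Pool.Agent.Helper56.NL

/-- the transcendence degree over `ℚ` of the field generated by the `z i` and the `E (z i)` -/
noncomputable def td (F : ExpField) {n : ℕ} (z : Fin n → ℂ) : Cardinal :=
  Algebra.trdeg ℚ (IntermediateField.adjoin ℚ (Set.range z ∪ Set.range fun i => F.E (z i)))

/-- `d` is the defect function of `F`: `d n` is the largest number by which Schanuel's inequality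
`n ≤ td z` fails for rationally independent `n`-tuples `z`. -/
def Defect (F : ExpField) (d : ℕ → ℕ) : Prop := ∀ n : ℕ,
  (∀ z : Fin n → ℂ, (∀ i, z i ∈ F.K) → LinearIndependent ℚ z → (n : Cardinal) ≤ td F z + (d n : ℕ)) ∧
    ∃ z : Fin n → ℂ, (∀ i, z i ∈ F.K) ∧ LinearIndependent ℚ z ∧ (n : Cardinal) = td F z + (d n : ℕ)

/-- Gel'fond's conjecture: exponentials of rationally independent algebraic numbers and rationally
independent logarithms of algebraic numbers are together algebraically independent. -/
def Gelfond (F : ExpField) : Prop :=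
  ∀ (a b : ℕ) (α : Fin a → ℂ) (l : Fin b → ℂ), (∀ i, IsAlgebraic ℚ (α i)) → (∀ j, IsLog F (l j)) →
    LinearIndependent ℚ α → LinearIndependent ℚ l →
      AlgebraicIndependent ℚ (Sum.elim (fun i => F.E (α i)) l)

/-- Schanuel's conjecture modulo `X`: if the `z i` are rationally independent modulo `X`, then `n` of the
numbers `z i`, `E (z i)` are algebraically independent over the field generated by `X` and `E X`. -/
def SchanuelModulo (F : ExpField) (X : Submodule ℚ ℂ) : Prop :=
  ∀ (n : ℕ) (z : Fin n → ℂ), (∀ i, z i ∈ F.K) → LinearIndependent ℚ (fun i => X.mkQ (z i)) →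
    ∃ f : Fin n → ℂ, (∀ i, f i ∈ Set.range z ∪ Set.range fun j => F.E (z j)) ∧
      AlgebraicIndependent (IntermediateField.adjoin ℚ ((X : Set ℂ) ∪ F.E '' X)) f

end Pool.Agent.Helper56.HS
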